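import Pool.Agent.Helper76.P13.StC
import Pool.Agent.Helper84.P13.M_PlA
import Pool.Agent.Helper84.P13.M_PlU
import Pool.Agent.Helper84.P13.M_Edg

/-!
# Project P13, module PLA: standard matrices and values on translated paths

The definitions of `Helper76/P13/StC.lean` and of `Helper84/P13/StD1.lean` have the same text.
-/

set_option autoImplicit false

namespace Pool.Agent.Helper51.P13

open Pool.Agent.Helper76.P13
open Pool.Agent.Helper28.WK (SymP)

/-- PLA. -/
theorem hPlA : S13PlA := fun μ r s x y => Pool.Agent.Helper84.P13.hPlA μ r s x y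

/-- EDG. -/
theorem hEdg : S13Edg := fun R _ μ r s G hG u1 u2 v1 v2 hu hv x y a b c d h =>
  Pool.Agent.Helper84.P13.hEdg Pool.Agent.Helper84.P13.hPlA Pool.Agent.Helper84.P13.hPlU
    R _ μ r s G hG u1 u2 v1 v2 hu hv x y a b c d h

end Pool.Agent.Helper51.P13
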